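import Pool.Agent.H302FL.Table

/-!
# The digits of a sequence without small prime factors are eventually periodic
-/

set_option autoImplicit false

namespace Pool.Agent.H302FL

theorem img_spec {l inv m i m' : ℕ} (h : img l inv m i m' = true) {x : ℕ} (hx : x < l)
    (hm : m.testBit x = true) :
    (inv * (7 * x + dr i)) % l = 0 ∨ m'.testBit ((inv * (7 * x + dr i)) % l) = true := by
  unfold img at h
  rw [List.all_eq_true] at h
  have h1 := h x (List.mem_range.2 hx)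
  simp only [Bool.or_eq_true, Bool.not_eq_true', beq_iff_eq] at h1
  rcases h1 with (h1 | h1) | h1
  · rw [hm] at h1; exact absurd h1 (by decide)
  · exact Or.inl h1
  · exact Or.inr h1

theorem dr_dig {i : ℕ} (hi : i < 5) : (dr i : ℤ) = dig i + 429 := by
  interval_cases i <;> rfl

/-- The index of a digit. -/
theorem exists_index {r : ℤ} (h1 : -5 < r) (h2 : r < 7) (h3 : r % 2 = 0) (h4 : r ≠ 0) :
    ∃ i, i < 5 ∧ dig i = r := by
  have h : r = -4 ∨ r = -2 ∨ r = 2 ∨ r = 4 ∨ r = 6 := by omega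
  rcases h with h | h | h | h | h
  · exact ⟨0, by norm_num, h.symm ▸ rfl⟩
  · exact ⟨1, by norm_num, h.symm ▸ rfl⟩
  · exact ⟨2, by norm_num, h.symm ▸ rfl⟩
  · exact ⟨3, by norm_num, h.symm ▸ rfl⟩
  · exact ⟨4, by norm_num, h.symm ▸ rfl⟩

/-- The integer `s` and the real number `f` are compatible with the state `n`. -/
def Inv (n : Node) (s : ℤ) (f : ℝ) : Prop :=
  n.m3.testBit (s % 3).toNat = true ∧ n.m11.testBit (s % 11).toNat = true ∧
    n.m13.testBit (s % 13).toNat = true ∧ (n.lo : ℝ) ≤ 1000 * f ∧ 1000 * f < n.hi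

theorem mask_step {l inv m i m' : ℕ} {s s' : ℤ} (hl : l = 3 ∧ inv = 2 ∨ l = 11 ∧ inv = 9 ∨ l = 13 ∧ inv = 8)
    (hi : i < 5) (h : img l inv m i m' = true) (hr : 5 * s' = 7 * s + dig i)
    (hs : s' % (l : ℤ) ≠ 0) (hm : m.testBit (s % (l : ℤ)).toNat = true) :
    m'.testBit (s' % (l : ℤ)).toNat = true := by
  have hd := dr_dig hi
  have hx : (s % (l : ℤ)).toNat < l := by
    rcases hl with ⟨rfl, rfl⟩ | ⟨rfl, rfl⟩ | ⟨rfl, rfl⟩ <;> norm_num <;> omega
  have e : ((inv * (7 * (s % (l : ℤ)).toNat + dr i)) % l : ℕ) = (s' % (l : ℤ)).toNat := by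
    rcases hl with ⟨rfl, rfl⟩ | ⟨rfl, rfl⟩ | ⟨rfl, rfl⟩ <;> norm_num <;> omega
  rcases img_spec h hx hm with h1 | h1
  · rw [e] at h1
    exfalso
    rcases hl with ⟨rfl, rfl⟩ | ⟨rfl, rfl⟩ | ⟨rfl, rfl⟩ <;> norm_num at * <;> omega
  · rwa [e] at h1

theorem mask_dead {l inv m i : ℕ} {s s' : ℤ} (hl : l = 3 ∧ inv = 2 ∨ l = 11 ∧ inv = 9 ∨ l = 13 ∧ inv = 8)
    (hi : i < 5) (h : img l inv m i 0 = true) (hr : 5 * s' = 7 * s + dig i)
    (hs : s' % (l : ℤ) ≠ 0) (hm : m.testBit (s % (l : ℤ)).toNat = true) : False := by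
  have h1 := mask_step hl hi h hr hs hm
  simp at h1

theorem step {u i : ℕ} (hu : u < 70) (hi : i < 5) {s s' : ℤ} {f f' : ℝ} (h : Inv (nd u) s f)
    (hr : 5 * s' = 7 * s + dig i) (hf : 5 * f' = 7 * f - (dig i : ℝ)) (h0 : 0 ≤ f') (h1 : f' < 1)
    (h3 : s' % 3 ≠ 0) (h11 : s' % 11 ≠ 0) (h13 : s' % 13 ≠ 0) :
    del u i < 70 ∧ Inv (nd (del u i)) s' f' ∧
      ((nd (del u i)).rk < (nd u).rk ∨ (nd (del u i)).rk = (nd u).rk ∧ del u i = (nd u).nx ∧
        i = (nd u).dg) := by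
  obtain ⟨a3, a11, a13, alo, ahi⟩ := h
  have l3 : (3 : ℕ) = 3 ∧ 2 = 2 ∨ (3 : ℕ) = 11 ∧ 2 = 9 ∨ (3 : ℕ) = 13 ∧ 2 = 8 := Or.inl ⟨rfl, rfl⟩
  have l11 : (11 : ℕ) = 3 ∧ 9 = 2 ∨ (11 : ℕ) = 11 ∧ 9 = 9 ∨ (11 : ℕ) = 13 ∧ 9 = 8 :=
    Or.inr (Or.inl ⟨rfl, rfl⟩)
  have l13 : (13 : ℕ) = 3 ∧ 8 = 2 ∨ (13 : ℕ) = 11 ∧ 8 = 9 ∨ (13 : ℕ) = 13 ∧ 8 = 8 :=
    Or.inr (Or.inr ⟨rfl, rfl⟩)
  rcases chk_spec hu hi with hd | hg
  · exfalso
    unfold dead at hd
    simp only [Bool.or_eq_true, decide_eq_true_eq] at hd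
    rcases hd with (((hd | hd) | hd) | hd) | hd
    · exact mask_dead l3 hi hd hr h3 a3
    · exact mask_dead l11 hi hd hr h11 a11
    · exact mask_dead l13 hi hd hr h13 a13
    · have hd' : (7 : ℝ) * ((nd u).hi : ℝ) ≤ (dig i : ℝ) * 1000 := by exact_mod_cast hd
      linarith
    · have hd' : (5000 : ℝ) ≤ 7 * ((nd u).lo : ℝ) - (dig i : ℝ) * 1000 := by exact_mod_cast hd
      linarith
  · unfold good at hg
    simp only [Bool.and_eq_true, Bool.or_eq_true, decide_eq_true_eq] at hg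
    obtain ⟨⟨⟨⟨⟨⟨g0, g3⟩, g11⟩, g13⟩, glo⟩, ghi⟩, grk⟩ := hg
    refine ⟨g0, ⟨mask_step l3 hi g3 hr h3 a3, mask_step l11 hi g11 hr h11 a11,
      mask_step l13 hi g13 hr h13 a13, ?_, ?_⟩, ?_⟩
    · rcases glo with g | g
      · rw [g]; push_cast; linarith
      · have g' : (5 : ℝ) * ((nd (del u i)).lo : ℝ) ≤ 7 * ((nd u).lo : ℝ) - (dig i : ℝ) * 1000 := by
          exact_mod_cast g
        linarith
    · rcases ghi with g | g
      · rw [g]; push_cast; linarith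
      · have g' : 7 * ((nd u).hi : ℝ) - (dig i : ℝ) * 1000 ≤ 5 * ((nd (del u i)).hi : ℝ) := by
          exact_mod_cast g
        linarith
    · rcases grk with g | ⟨⟨g, g'⟩, g''⟩
      · exact Or.inl g
      · exact Or.inr ⟨g, g', g''⟩

theorem inv_root {s : ℤ} {f : ℝ} (h0 : 0 ≤ f) (h1 : f < 1) (h3 : s % 3 ≠ 0) (h11 : s % 11 ≠ 0)
    (h13 : s % 13 ≠ 0) : Inv (nd 0) s f := by
  have e : nd 0 = ⟨6, 2046, 8190, 0, 1000, 46, 0, 0, [1, 2, 3, 4, 5]⟩ := rfl
  rw [e]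
  refine ⟨?_, ?_, ?_, ?_, ?_⟩
  · show Nat.testBit 6 (s % 3).toNat = true
    have hx : (s % 3).toNat < 3 := by omega
    have hx0 : (s % 3).toNat ≠ 0 := by omega
    generalize (s % 3).toNat = x at hx hx0
    interval_cases x <;> first | rfl | exact absurd rfl hx0
  · show Nat.testBit 2046 (s % 11).toNat = true
    have hx : (s % 11).toNat < 11 := by omega
    have hx0 : (s % 11).toNat ≠ 0 := by omega
    generalize (s % 11).toNat = x at hx hx0
    interval_cases x <;> first | rfl | exact absurd rfl hx0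
  · show Nat.testBit 8190 (s % 13).toNat = true
    have hx : (s % 13).toNat < 13 := by omega
    have hx0 : (s % 13).toNat ≠ 0 := by omega
    generalize (s % 13).toNat = x at hx hx0
    interval_cases x <;> first | rfl | exact absurd rfl hx0
  · push_cast; linarith
  · push_cast; linarith

/-- The digits are eventually periodic. -/
theorem periodic (s : ℕ → ℤ) (f : ℕ → ℝ) (h0 : ∀ n, 0 ≤ f n) (h1 : ∀ n, f n < 1)
    (hf : ∀ n, 5 * f (n + 1) = 7 * f n - ((5 * s (n + 1) - 7 * s n : ℤ) : ℝ))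
    (h2 : ∀ n, s n % 2 ≠ 0) (h3 : ∀ n, s n % 3 ≠ 0) (h5 : ∀ n, s n % 5 ≠ 0)
    (h11 : ∀ n, s n % 11 ≠ 0) (h13 : ∀ n, s n % 13 ≠ 0) :
    ∃ i p, 0 < p ∧ ∀ k, 5 * s (i + p + k + 1) - 7 * s (i + p + k) = 5 * s (i + k + 1) - 7 * s (i + k) := by
  have hdig : ∀ n, ∃ i, i < 5 ∧ dig i = 5 * s (n + 1) - 7 * s n := by
    intro n
    have a1 := hf n
    have b1 : (-5 : ℝ) < ((5 * s (n + 1) - 7 * s n : ℤ) : ℝ) := by
      have := h0 n; have := h1 (n + 1); linarith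
    have b2 : ((5 * s (n + 1) - 7 * s n : ℤ) : ℝ) < 7 := by
      have := h1 n; have := h0 (n + 1); linarith
    have c1 : (-5 : ℤ) < 5 * s (n + 1) - 7 * s n := by exact_mod_cast b1
    have c2 : 5 * s (n + 1) - 7 * s n < 7 := by exact_mod_cast b2
    have d2 := h2 n
    have d2' := h2 (n + 1)
    have d5 := h5 n
    exact exists_index c1 c2 (by omega) (by omega)
  choose di hdi hdi' using hdig
  let u : ℕ → ℕ := fun n => Nat.rec 0 (fun n v => del v (di n)) n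
  have u0 : u 0 = 0 := rfl
  have us : ∀ n, u (n + 1) = del (u n) (di n) := fun n => rfl
  have hinv : ∀ n, u n < 70 ∧ Inv (nd (u n)) (s n) (f n) := by
    intro n
    induction n with
    | zero => exact ⟨by rw [u0]; norm_num, by
        rw [u0]; exact inv_root (h0 0) (h1 0) (h3 0) (h11 0) (h13 0)⟩
    | succ n ih =>
      have hr : 5 * s (n + 1) = 7 * s n + dig (di n) := by rw [hdi' n]; ring
      have hff : 5 * f (n + 1) = 7 * f n - (dig (di n) : ℝ) := by rw [hdi' n]; exact hf n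
      have := step ih.1 (hdi n) ih.2 hr hff (h0 _) (h1 _) (h3 _) (h11 _) (h13 _)
      rw [us n]
      exact ⟨this.1, this.2.1⟩
  have hrk : ∀ n, (nd (u (n + 1))).rk < (nd (u n)).rk ∨ (nd (u (n + 1))).rk = (nd (u n)).rk ∧
      u (n + 1) = (nd (u n)).nx ∧ di n = (nd (u n)).dg := by
    intro n
    have hr : 5 * s (n + 1) = 7 * s n + dig (di n) := by rw [hdi' n]; ring
    have hff : 5 * f (n + 1) = 7 * f n - (dig (di n) : ℝ) := by rw [hdi' n]; exact hf n
    have := step (hinv n).1 (hdi n) (hinv n).2 hr hff (h0 _) (h1 _) (h3 _) (h11 _) (h13 _)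
    rw [us n]
    exact this.2.2
  -- the rank is eventually constant
  obtain ⟨n0, hn0⟩ : ∃ n0, ∀ n, (nd (u n0)).rk ≤ (nd (u n)).rk := by
    obtain ⟨m, hm1, hm2⟩ := WellFounded.has_min (wellFounded_lt : WellFounded ((· < ·) : ℕ → ℕ → Prop))
      (Set.range fun n => (nd (u n)).rk) ⟨_, 0, rfl⟩
    obtain ⟨n0, rfl⟩ := hm1
    exact ⟨n0, fun n => not_lt.1 (hm2 _ ⟨n, rfl⟩)⟩
  have hmono : ∀ k, (nd (u (n0 + k))).rk = (nd (u n0)).rk := by
    intro k
    induction k with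
    | zero => rfl
    | succ k ih =>
      have := hrk (n0 + k)
      have h' := hn0 (n0 + k + 1)
      rw [← add_assoc]
      omega
  have hdet : ∀ k, u (n0 + k + 1) = (nd (u (n0 + k))).nx ∧ di (n0 + k) = (nd (u (n0 + k))).dg := by
    intro k
    have h' := hmono k
    have h'' := hmono (k + 1)
    rw [← add_assoc] at h''
    rcases hrk (n0 + k) with h | h
    · omega
    · exact h.2
  -- two equal states
  obtain ⟨x, y, hxy, hu⟩ : ∃ x y, x < y ∧ u (n0 + x) = u (n0 + y) := by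
    let F : ℕ → Fin 70 := fun k => ⟨u (n0 + k), (hinv _).1⟩
    obtain ⟨x, y, hne, he⟩ := Finite.exists_ne_map_eq_of_infinite F
    have he' : u (n0 + x) = u (n0 + y) := by simpa [F] using he
    rcases lt_or_gt_of_ne hne with h | h
    · exact ⟨x, y, h, he'⟩
    · exact ⟨y, x, h, he'.symm⟩
  have hper : ∀ k, u (n0 + x + k) = u (n0 + y + k) := by
    intro k
    induction k with
    | zero => exact hu
    | succ k ih =>
      have a1 := (hdet (x + k)).1
      have a2 := (hdet (y + k)).1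
      rw [← add_assoc] at a1 a2
      rw [← add_assoc, ← add_assoc, a1, a2, ih]
  refine ⟨n0 + x, y - x, by omega, fun k => ?_⟩
  have e : n0 + x + (y - x) + k = n0 + y + k := by omega
  rw [e]
  have a1 := (hdet (x + k)).2
  have a2 := (hdet (y + k)).2
  rw [← add_assoc] at a1 a2
  rw [← hdi' (n0 + y + k), ← hdi' (n0 + x + k), a1, a2, hper k]

end Pool.Agent.H302FL
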