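import Pool.Agent.H302FL.Core

/-!
# Composite integer parts of `ξ (7/5)^n`
-/

set_option autoImplicit false

namespace Pool.Agent.H302FL

/-- An integer sequence with `5 e (k+1) = 7 e k` is zero. -/
theorem zero_of_rec (e : ℕ → ℤ) (he : ∀ k, 5 * e (k + 1) = 7 * e k) : ∀ k, e k = 0 := by
  have h1 : ∀ j k, (5 : ℤ) ^ k * e (j + k) = 7 ^ k * e j := by
    intro j k
    induction k with
    | zero => simp
    | succ k ih =>
      have := he (j + k)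
      rw [← add_assoc, pow_succ, pow_succ]
      calc (5 : ℤ) ^ k * 5 * e (j + k + 1) = 5 ^ k * (5 * e (j + k + 1)) := by ring
        _ = 5 ^ k * (7 * e (j + k)) := by rw [this]
        _ = 7 * (5 ^ k * e (j + k)) := by ring
        _ = 7 * (7 ^ k * e j) := by rw [ih]
        _ = 7 ^ k * 7 * e j := by ring
  intro j
  have h2 : ∀ k, (5 : ℤ) ^ k ∣ e j := by
    intro k
    have hd : (5 : ℤ) ^ k ∣ 7 ^ k * e j := ⟨e (j + k), (h1 j k).symm⟩
    have hc : IsCoprime ((5 : ℤ) ^ k) (7 ^ k) := IsCoprime.pow (by norm_num)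
    exact hc.dvd_of_dvd_mul_left hd
  by_contra hne
  have h3 : (e j).natAbs < 5 ^ (e j).natAbs := Nat.lt_pow_self (by norm_num)
  have h4 : (5 : ℕ) ^ (e j).natAbs ∣ (e j).natAbs := by
    have := Int.natAbs_dvd_natAbs.2 (h2 (e j).natAbs)
    rwa [Int.natAbs_pow] at this
  exact absurd (Nat.le_of_dvd (Int.natAbs_pos.2 hne) h4) (not_le.2 h3)

/-- If `ξ ≠ 0` then for every `N` there is `n ≥ N` such that the integer part of `ξ (7/5)^n` is
divisible by one of `2`, `3`, `5`, `11`, `13`. -/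
theorem exists_dvd (ξ : ℝ) (hξ : ξ ≠ 0) (N : ℕ) :
    ∃ n, N ≤ n ∧ (⌊ξ * (7 / 5 : ℝ) ^ n⌋ % 2 = 0 ∨ ⌊ξ * (7 / 5 : ℝ) ^ n⌋ % 3 = 0 ∨
      ⌊ξ * (7 / 5 : ℝ) ^ n⌋ % 5 = 0 ∨ ⌊ξ * (7 / 5 : ℝ) ^ n⌋ % 11 = 0 ∨
      ⌊ξ * (7 / 5 : ℝ) ^ n⌋ % 13 = 0) := by
  by_contra hcon
  push Not at hcon
  let z : ℕ → ℝ := fun n => ξ * (7 / 5 : ℝ) ^ (N + n)
  let s : ℕ → ℤ := fun n => ⌊z n⌋
  have hz : ∀ n, 5 * z (n + 1) = 7 * z n := by
    intro n
    simp only [z]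
    rw [← add_assoc, pow_succ]
    ring
  have hc : ∀ n, s n % 2 ≠ 0 ∧ s n % 3 ≠ 0 ∧ s n % 5 ≠ 0 ∧ s n % 11 ≠ 0 ∧ s n % 13 ≠ 0 :=
    fun n => hcon (N + n) (Nat.le_add_right _ _)
  obtain ⟨i, p, hp, hper⟩ := periodic s (fun n => z n - s n)
    (fun n => sub_nonneg.2 (Int.floor_le _)) (fun n => by
      have := Int.lt_floor_add_one (z n)
      show z n - (⌊z n⌋ : ℝ) < 1
      linarith)
    (fun n => by
      have := hz n
      push_cast
      linarith)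
    (fun n => (hc n).1) (fun n => (hc n).2.1) (fun n => (hc n).2.2.1) (fun n => (hc n).2.2.2.1)
    (fun n => (hc n).2.2.2.2)
  have he := zero_of_rec (fun k => s (i + p + k) - s (i + k)) (fun k => by
    have := hper k
    show 5 * (s (i + p + (k + 1)) - s (i + (k + 1))) = 7 * (s (i + p + k) - s (i + k))
    rw [← add_assoc, ← add_assoc]
    linarith)
  have hs : ∀ m, s (i + m * p) = s i := by
    intro m
    induction m with
    | zero => simp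
    | succ m ih =>
      have h : s (i + p + m * p) - s (i + m * p) = 0 := he (m * p)
      have e : i + (m + 1) * p = i + p + m * p := by ring
      rw [e]
      omega
  -- growth
  have hb : ∀ m, |z (i + m * p)| ≤ |(s i : ℝ)| + 1 := by
    intro m
    have h1 := Int.floor_le (z (i + m * p))
    have h2 := Int.lt_floor_add_one (z (i + m * p))
    have h3 : (⌊z (i + m * p)⌋ : ℝ) = s i := by exact_mod_cast hs m
    rw [h3] at h1 h2
    rw [abs_le]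
    constructor
    · have := neg_abs_le (s i : ℝ); linarith
    · have := le_abs_self (s i : ℝ); linarith
  have habs : 0 < |ξ| := abs_pos.2 hξ
  obtain ⟨m, hm⟩ := pow_unbounded_of_one_lt ((|(s i : ℝ)| + 1) / |ξ|) (by norm_num : (1 : ℝ) < 7 / 5)
  have h4 : (7 / 5 : ℝ) ^ m ≤ (7 / 5 : ℝ) ^ (N + (i + m * p)) := by
    apply pow_le_pow_right₀ (by norm_num)
    nlinarith [Nat.zero_le N, Nat.zero_le i, Nat.zero_le m, hp]
  have h5 : |z (i + m * p)| = |ξ| * (7 / 5 : ℝ) ^ (N + (i + m * p)) := by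
    simp only [z]
    rw [abs_mul, abs_of_pos (pow_pos (by norm_num : (0 : ℝ) < 7 / 5) _)]
  have h6 := hb m
  rw [h5] at h6
  rw [div_lt_iff₀ habs] at hm
  have h7 : (7 / 5 : ℝ) ^ m * |ξ| ≤ |ξ| * (7 / 5 : ℝ) ^ (N + (i + m * p)) := by
    rw [mul_comm]
    exact mul_le_mul_of_nonneg_left h4 habs.le
  linarith

/-- For every `ξ ≠ 0` infinitely many of the integer parts of `ξ (7/5)^n` are composite and not
coprime to `4290 = 2 · 3 · 5 · 11 · 13`. -/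
theorem infinite_composite (ξ : ℝ) (hξ : ξ ≠ 0) :
    {n : ℕ | (1 < ⌊ξ * (7 / 5 : ℝ) ^ n⌋.natAbs ∧ ¬ (⌊ξ * (7 / 5 : ℝ) ^ n⌋.natAbs).Prime) ∧
      1 < Nat.gcd ⌊ξ * (7 / 5 : ℝ) ^ n⌋.natAbs 4290}.Infinite := by
  rw [Set.infinite_iff_exists_gt]
  intro N
  have habs : 0 < |ξ| := abs_pos.2 hξ
  obtain ⟨m, hm⟩ := pow_unbounded_of_one_lt (15 / |ξ|) (by norm_num : (1 : ℝ) < 7 / 5)
  rw [div_lt_iff₀ habs] at hm
  obtain ⟨n, hn, hdiv⟩ := exists_dvd ξ hξ (N + m + 1)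
  refine ⟨n, ?_, by omega⟩
  have hbig : 13 < ⌊ξ * (7 / 5 : ℝ) ^ n⌋.natAbs := by
    have h4 : (7 / 5 : ℝ) ^ m ≤ (7 / 5 : ℝ) ^ n := pow_le_pow_right₀ (by norm_num) (by omega)
    have h5 : |ξ * (7 / 5 : ℝ) ^ n| = |ξ| * (7 / 5 : ℝ) ^ n := by
      rw [abs_mul, abs_of_pos (pow_pos (by norm_num : (0 : ℝ) < 7 / 5) _)]
    have h6 : 15 < |ξ * (7 / 5 : ℝ) ^ n| := by
      rw [h5]
      have : (7 / 5 : ℝ) ^ m * |ξ| ≤ |ξ| * (7 / 5 : ℝ) ^ n := by
        rw [mul_comm]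
        exact mul_le_mul_of_nonneg_left h4 habs.le
      linarith
    by_contra hle
    push Not at hle
    have h7 := Int.floor_le (ξ * (7 / 5 : ℝ) ^ n)
    have h8 := Int.lt_floor_add_one (ξ * (7 / 5 : ℝ) ^ n)
    have h9 : |(⌊ξ * (7 / 5 : ℝ) ^ n⌋ : ℝ)| ≤ 13 := by
      have : (|⌊ξ * (7 / 5 : ℝ) ^ n⌋| : ℤ) ≤ 13 := by
        rw [Int.abs_eq_natAbs]
        exact_mod_cast hle
      exact_mod_cast this
    rw [abs_le] at h9
    have h10 : |ξ * (7 / 5 : ℝ) ^ n| ≤ 14 := by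
      rw [abs_le]
      constructor <;> linarith
    linarith
  have key : ∀ q : ℕ, q.Prime → q ∣ 4290 → q ≤ 13 → ⌊ξ * (7 / 5 : ℝ) ^ n⌋ % (q : ℤ) = 0 →
      (1 < ⌊ξ * (7 / 5 : ℝ) ^ n⌋.natAbs ∧ ¬ (⌊ξ * (7 / 5 : ℝ) ^ n⌋.natAbs).Prime) ∧
      1 < Nat.gcd ⌊ξ * (7 / 5 : ℝ) ^ n⌋.natAbs 4290 := by
    intro q hq hq1 hq2 hq3
    have hd : q ∣ ⌊ξ * (7 / 5 : ℝ) ^ n⌋.natAbs := by
      have := Int.dvd_of_emod_eq_zero hq3
      exact Int.natCast_dvd.1 this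
    refine ⟨⟨lt_trans (by norm_num) hbig, fun hP => ?_⟩, ?_⟩
    · rcases hP.eq_one_or_self_of_dvd q hd with h | h
      · exact hq.one_lt.ne' h
      · omega
    · have h1 : q ∣ Nat.gcd ⌊ξ * (7 / 5 : ℝ) ^ n⌋.natAbs 4290 := Nat.dvd_gcd hd hq1
      have h2 : 0 < Nat.gcd ⌊ξ * (7 / 5 : ℝ) ^ n⌋.natAbs 4290 := Nat.gcd_pos_of_pos_right _ (by norm_num)
      exact lt_of_lt_of_le hq.one_lt (Nat.le_of_dvd h2 h1)
  rcases hdiv with h | h | h | h | h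
  · exact key 2 Nat.prime_two (by norm_num) (by norm_num) h
  · exact key 3 (by norm_num) (by norm_num) (by norm_num) h
  · exact key 5 (by norm_num) (by norm_num) (by norm_num) h
  · exact key 11 (by norm_num) (by norm_num) (by norm_num) h
  · exact key 13 (by norm_num) (by norm_num) (by norm_num) h

end Pool.Agent.H302FL
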