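import Mathlib

/-!
# The automaton for the integer parts of `ξ (7/5)^n`

Let `s n` be the integer part and `f n` the fractional part of `ξ (7/5)^n`, and let
`r n = 5 s (n+1) - 7 s n`, an integer with `-5 < r n < 7` and `5 f (n+1) = 7 f n - r n`.  If none of
the numbers `s n` is divisible by `2`, `3`, `5`, `11` or `13`, then `r n` is one of
`-4, -2, 2, 4, 6`.  A state of the automaton records sets of possible residues of `s n` modulo `3`,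
`11` and `13` and an interval containing `1000 f n`; it is reached from the start by a word of digits
`r`.  Each of the 70 states has a rank; every step that is possible leads to a state of smaller rank,
with one exception for some of the states, which leads to a state of the same rank.
-/

set_option autoImplicit false

namespace Pool.Agent.H302FL

/-- A state: masks of residues modulo `3`, `11`, `13`, the interval `[lo, hi)` for `1000 f`, the rank,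
the state of the same rank that can follow, the index of its digit, and the five transitions
(`70`: impossible). -/
structure Node where
  m3 : ℕ
  m11 : ℕ
  m13 : ℕ
  lo : ℕ
  hi : ℕ
  rk : ℕ
  nx : ℕ
  dg : ℕ
  d : List ℕ

/-- The states. -/
def tab : List Node :=
  [⟨6, 2046, 8190, 0, 1000, 46, 0, 0, [1, 2, 3, 4, 5]⟩,
   ⟨4, 1790, 8062, 800, 1000, 37, 0, 0, [70, 70, 6, 70, 7]⟩,
   ⟨2, 2030, 7166, 400, 1000, 39, 4, 3, [70, 8, 70, 4, 5]⟩,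
   ⟨4, 1918, 8182, 0, 1000, 45, 0, 0, [9, 70, 10, 70, 11]⟩,
   ⟨2, 2038, 8126, 0, 600, 39, 2, 1, [70, 2, 70, 12, 70]⟩,
   ⟨6, 1022, 7678, 0, 200, 38, 0, 0, [1, 13, 70, 70, 70]⟩,
   ⟨4, 1886, 8150, 720, 1000, 36, 0, 0, [70, 70, 14, 70, 11]⟩,
   ⟨2, 766, 5630, 0, 200, 11, 0, 0, [70, 13, 70, 70, 70]⟩,
   ⟨2, 2022, 5118, 960, 1000, 1, 15, 3, [70, 70, 70, 15, 16]⟩,
   ⟨4, 1278, 7998, 800, 1000, 25, 17, 2, [70, 70, 17, 70, 7]⟩,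
   ⟨4, 1662, 8178, 0, 1000, 44, 0, 0, [9, 70, 18, 70, 11]⟩,
   ⟨2, 1022, 7422, 0, 200, 7, 0, 0, [70, 13, 70, 70, 70]⟩,
   ⟨2, 2006, 8110, 0, 40, 1, 19, 1, [70, 19, 70, 70, 70]⟩,
   ⟨2, 1902, 7038, 400, 680, 6, 0, 0, [70, 8, 70, 20, 70]⟩,
   ⟨4, 1654, 7154, 608, 1000, 35, 0, 0, [70, 70, 21, 70, 11]⟩,
   ⟨2, 2002, 5950, 544, 600, 1, 12, 3, [70, 70, 70, 12, 70]⟩,
   ⟨4, 508, 6652, 144, 200, 0, 0, 0, [70, 70, 70, 70, 70]⟩,
   ⟨4, 1882, 8148, 720, 1000, 25, 22, 2, [70, 70, 22, 70, 11]⟩,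
   ⟨4, 1630, 6130, 0, 1000, 43, 0, 0, [9, 70, 23, 70, 11]⟩,
   ⟨2, 1966, 6910, 400, 456, 1, 8, 1, [70, 8, 70, 70, 70]⟩,
   ⟨2, 2018, 7742, 0, 152, 5, 0, 0, [70, 24, 70, 70, 70]⟩,
   ⟨4, 1118, 6114, 451, 1000, 34, 0, 0, [70, 70, 25, 70, 11]⟩,
   ⟨4, 1652, 7026, 608, 1000, 25, 26, 2, [70, 70, 26, 70, 11]⟩,
   ⟨4, 1622, 5874, 0, 1000, 42, 0, 0, [9, 70, 27, 70, 11]⟩,
   ⟨2, 1446, 2806, 400, 613, 4, 0, 0, [70, 8, 70, 28, 70]⟩,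
   ⟨4, 1618, 5810, 231, 1000, 33, 0, 0, [70, 70, 29, 70, 11]⟩,
   ⟨4, 1102, 6082, 451, 1000, 25, 30, 2, [70, 70, 30, 70, 11]⟩,
   ⟨4, 1110, 5362, 0, 1000, 41, 0, 0, [9, 70, 31, 70, 11]⟩,
   ⟨2, 1362, 3866, 0, 59, 3, 0, 0, [70, 32, 70, 70, 70]⟩,
   ⟨4, 1108, 5360, 0, 1000, 32, 0, 0, [33, 70, 34, 70, 11]⟩,
   ⟨4, 1554, 4786, 231, 1000, 25, 35, 2, [70, 70, 35, 70, 11]⟩,
   ⟨4, 1106, 5362, 0, 1000, 40, 0, 0, [9, 70, 36, 70, 11]⟩,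
   ⟨2, 398, 2702, 400, 483, 2, 0, 0, [70, 8, 70, 70, 70]⟩,
   ⟨4, 134, 1834, 800, 1000, 31, 0, 0, [70, 70, 37, 70, 7]⟩,
   ⟨4, 1090, 5234, 0, 1000, 25, 36, 2, [38, 70, 36, 70, 11]⟩,
   ⟨4, 1108, 5344, 0, 1000, 25, 34, 2, [39, 70, 34, 70, 11]⟩,
   ⟨4, 1104, 5362, 0, 1000, 25, 9, 0, [9, 70, 40, 70, 11]⟩,
   ⟨4, 274, 1684, 720, 1000, 30, 0, 0, [70, 70, 41, 70, 11]⟩,
   ⟨4, 34, 3370, 800, 1000, 24, 42, 2, [70, 70, 42, 70, 7]⟩,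
   ⟨4, 134, 810, 800, 1000, 24, 43, 2, [70, 70, 43, 70, 7]⟩,
   ⟨4, 1088, 5362, 0, 1000, 18, 40, 2, [44, 70, 40, 70, 11]⟩,
   ⟨4, 112, 2160, 608, 1000, 29, 0, 0, [70, 70, 45, 70, 11]⟩,
   ⟨4, 24, 1940, 720, 1000, 24, 46, 2, [70, 70, 46, 70, 11]⟩,
   ⟨4, 274, 1668, 720, 1000, 24, 47, 2, [70, 70, 47, 70, 11]⟩,
   ⟨4, 2, 3882, 800, 1000, 17, 0, 0, [70, 70, 48, 70, 7]⟩,
   ⟨4, 72, 1346, 451, 1000, 28, 0, 0, [70, 70, 49, 70, 11]⟩,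
   ⟨4, 576, 2672, 608, 1000, 24, 50, 2, [70, 70, 50, 70, 11]⟩,
   ⟨4, 112, 2096, 608, 1000, 24, 51, 2, [70, 70, 51, 70, 11]⟩,
   ⟨4, 16, 1940, 720, 1000, 16, 0, 0, [70, 70, 52, 70, 11]⟩,
   ⟨4, 512, 658, 231, 1000, 27, 0, 0, [70, 70, 53, 70, 11]⟩,
   ⟨4, 4, 1346, 451, 1000, 24, 54, 2, [70, 70, 54, 70, 11]⟩,
   ⟨4, 72, 1344, 451, 1000, 24, 55, 2, [70, 70, 55, 70, 11]⟩,
   ⟨4, 64, 2672, 608, 1000, 15, 0, 0, [70, 70, 70, 70, 11]⟩,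
   ⟨4, 4, 224, 0, 1000, 26, 0, 0, [56, 70, 34, 70, 11]⟩,
   ⟨4, 2, 658, 231, 1000, 24, 57, 2, [70, 70, 57, 70, 11]⟩,
   ⟨4, 512, 530, 231, 1000, 24, 58, 2, [70, 70, 58, 70, 11]⟩,
   ⟨4, 4, 546, 800, 1000, 12, 0, 0, [70, 70, 59, 70, 7]⟩,
   ⟨4, 16, 224, 0, 1000, 24, 39, 0, [39, 70, 60, 70, 11]⟩,
   ⟨4, 4, 192, 0, 1000, 24, 61, 2, [56, 70, 61, 70, 11]⟩,
   ⟨4, 2, 1152, 720, 1000, 10, 0, 0, [70, 70, 62, 70, 11]⟩,
   ⟨4, 64, 1058, 0, 1000, 23, 0, 0, [63, 70, 70, 70, 11]⟩,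
   ⟨4, 2, 34, 0, 1000, 24, 38, 0, [38, 70, 64, 70, 11]⟩,
   ⟨4, 16, 48, 608, 1000, 9, 0, 0, [70, 70, 65, 70, 11]⟩,
   ⟨4, 2, 2306, 800, 1000, 22, 0, 0, [70, 70, 66, 70, 7]⟩,
   ⟨4, 16, 1152, 0, 1000, 19, 0, 0, [67, 70, 40, 70, 11]⟩,
   ⟨4, 64, 1088, 451, 1000, 8, 0, 0, [70, 70, 70, 70, 11]⟩,
   ⟨4, 16, 896, 720, 1000, 21, 0, 0, [70, 70, 68, 70, 11]⟩,
   ⟨4, 128, 768, 800, 1000, 14, 0, 0, [70, 70, 69, 70, 70]⟩,
   ⟨4, 64, 544, 608, 1000, 20, 0, 0, [70, 70, 70, 70, 11]⟩,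
   ⟨4, 256, 512, 720, 1000, 13, 0, 0, [70, 70, 70, 70, 11]⟩]

/-- The state with number `u`. -/
def nd (u : ℕ) : Node := tab.getD u ⟨0, 0, 0, 0, 0, 0, 0, 0, []⟩

/-- The digits. -/
def dig (i : ℕ) : ℤ := [-4, -2, 2, 4, 6].getD i 0

/-- The digits plus `429`. -/
def dr (i : ℕ) : ℕ := [425, 427, 431, 433, 435].getD i 0

/-- The residues `x` of the mask `m` go to `0` or to residues of the mask `m'`. -/
def img (l inv m i m' : ℕ) : Bool :=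
  (List.range l).all fun x => !(m.testBit x) || ((inv * (7 * x + dr i)) % l == 0) ||
    m'.testBit ((inv * (7 * x + dr i)) % l)

/-- The digit is impossible in the state `n`. -/
def dead (n : Node) (i : ℕ) : Bool :=
  img 3 2 n.m3 i 0 || img 11 9 n.m11 i 0 || img 13 8 n.m13 i 0 ||
    decide (7 * (n.hi : ℤ) ≤ dig i * 1000) || decide (5000 ≤ 7 * (n.lo : ℤ) - dig i * 1000)

/-- The digit leads from the state `n` to the state with number `v`. -/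
def good (n : Node) (i v : ℕ) : Bool :=
  decide (v < 70) && img 3 2 n.m3 i (nd v).m3 && img 11 9 n.m11 i (nd v).m11 &&
    img 13 8 n.m13 i (nd v).m13 &&
    (decide ((nd v).lo = 0) || decide (5 * ((nd v).lo : ℤ) ≤ 7 * (n.lo : ℤ) - dig i * 1000)) &&
    (decide ((nd v).hi = 1000) || decide (7 * (n.hi : ℤ) - dig i * 1000 ≤ 5 * ((nd v).hi : ℤ))) &&
    (decide ((nd v).rk < n.rk) || (decide ((nd v).rk = n.rk) && decide (v = n.nx) &&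
      decide (i = n.dg)))

/-- The transition. -/
def del (u i : ℕ) : ℕ := (nd u).d.getD i 70

/-- The check of the table. -/
def chk : Bool :=
  (List.range 70).all fun u => (List.range 5).all fun i => dead (nd u) i || good (nd u) i (del u i)

theorem chk_true : chk = true := by decide +kernel

theorem chk_spec {u i : ℕ} (hu : u < 70) (hi : i < 5) :
    dead (nd u) i = true ∨ good (nd u) i (del u i) = true := by
  have h := chk_true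
  unfold chk at h
  rw [List.all_eq_true] at h
  have h1 := h u (List.mem_range.2 hu)
  rw [List.all_eq_true] at h1
  have h2 := h1 i (List.mem_range.2 hi)
  simpa [Bool.or_eq_true] using h2

end Pool.Agent.H302FL
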